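import Pool.Agent.Helper69.DC.Goals

set_option autoImplicit false

/-!
# Project DC (MP_628424_an): packet CCOP (the Cayley transform keeps degree and coprimality)
-/

namespace Pool.Agent.Helper39.DC.Ccop

open MvPolynomial Finset Pool.Agent.Helper69.DC

/-! ### General transforms -/

section tr

variable {σ τ : Type*}

lemma eval_hom {d : ℕ} {q : MvPolynomial σ ℂ} (hq : q.IsHomogeneous d)
    (c : ℂ) (x : σ → ℂ) : eval (fun i => c * x i) q = c ^ d * eval x q := by
  rw [eval_eq, eval_eq, mul_sum]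
  refine sum_congr rfl fun s hs => ?_
  have hdeg : ∑ i ∈ s.support, s i = d := by
    have := hq (mem_support_iff.mp hs)
    rw [Finsupp.weight_apply] at this
    rw [← this, Finsupp.sum]
    simp
  have h2 : ∏ i ∈ s.support, (c * x i) ^ s i = c ^ d * ∏ i ∈ s.support, x i ^ s i := by
    simp only [mul_pow]
    rw [prod_mul_distrib, prod_pow_eq_pow_sum, hdeg]
  rw [h2]
  ring

lemma sum_hom (P : MvPolynomial σ ℂ) {d : ℕ} (h : P.totalDegree ≤ d) :
    ∑ i ∈ range (d + 1), homogeneousComponent i P = P := by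
  conv_rhs => rw [← sum_homogeneousComponent P]
  symm
  refine sum_subset (range_subset_range.2 (by omega)) fun i _ hi => ?_
  exact homogeneousComponent_eq_zero i P (by simpa using hi)

lemma ev_aeval (g : τ → ℂ) (h : σ → MvPolynomial τ ℂ) (Q : MvPolynomial σ ℂ) :
    eval g (aeval h Q) = eval (fun k => eval g (h k)) Q := by
  induction Q using MvPolynomial.induction_on with
  | C a => simp
  | add p q hp hq => rw [map_add, map_add, map_add, hp, hq]
  | mul_X p n hp => rw [map_mul, map_mul, map_mul, hp, aeval_X, eval_X]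

/-- general homogenising transform -/
noncomputable def tr (w : MvPolynomial τ ℂ) (h : σ → MvPolynomial τ ℂ) (d : ℕ)
    (P : MvPolynomial σ ℂ) : MvPolynomial τ ℂ :=
  ∑ i ∈ range (d + 1), w ^ (d - i) * aeval h (homogeneousComponent i P)

lemma tr_eval (w : MvPolynomial τ ℂ) (h : σ → MvPolynomial τ ℂ) {d : ℕ}
    {P : MvPolynomial σ ℂ} (hP : P.totalDegree ≤ d) (g : τ → ℂ) (hg : eval g w ≠ 0) :
    eval g (tr w h d P) = eval g w ^ d * eval (fun k => (eval g w)⁻¹ * eval g (h k)) P := by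
  conv_rhs => rw [← sum_hom P hP]
  rw [map_sum, mul_sum, tr, map_sum]
  refine sum_congr rfl fun i hi => ?_
  have hi' : i ≤ d := by simpa [Nat.lt_succ_iff] using hi
  rw [eval_hom (homogeneousComponent_isHomogeneous i P), ← mul_assoc]
  have e2 : eval g w ^ d * ((eval g w)⁻¹) ^ i = eval g w ^ (d - i) := by
    rw [inv_pow, ← div_eq_mul_inv, div_eq_iff (pow_ne_zero _ hg), ← pow_add]
    congr 1
    omega
  rw [e2, map_mul, map_pow, ev_aeval]

lemma totalDegree_aeval_le {h : σ → MvPolynomial τ ℂ} (hh : ∀ k, (h k).totalDegree ≤ 1)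
    {e : ℕ} {Q : MvPolynomial σ ℂ} (hQ : Q.totalDegree ≤ e) : (aeval h Q).totalDegree ≤ e := by
  rw [aeval_def, eval₂_eq]
  refine totalDegree_finsetSum_le fun s hs => ?_
  refine (totalDegree_mul _ _).trans ?_
  have h1 : (algebraMap ℂ (MvPolynomial τ ℂ) (coeff s Q)).totalDegree = 0 :=
    totalDegree_C _
  have h2 : (∏ i ∈ s.support, h i ^ s i).totalDegree ≤ ∑ i ∈ s.support, s i := by
    refine (totalDegree_finsetProd _ _).trans (sum_le_sum fun i _ => ?_)
    exact (totalDegree_pow _ _).trans (by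
      calc s i * (h i).totalDegree ≤ s i * 1 := Nat.mul_le_mul_left _ (hh i)
        _ = s i := mul_one _)
  have h3 : ∑ i ∈ s.support, s i ≤ Q.totalDegree := le_totalDegree hs
  omega

lemma totalDegree_tr_le {w : MvPolynomial τ ℂ} {h : σ → MvPolynomial τ ℂ}
    (hw : w.totalDegree ≤ 1) (hh : ∀ k, (h k).totalDegree ≤ 1) (d : ℕ) (P : MvPolynomial σ ℂ) :
    (tr w h d P).totalDegree ≤ d := by
  refine totalDegree_finsetSum_le fun i hi => ?_
  have hi' : i ≤ d := by simpa [Nat.lt_succ_iff] using hi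
  refine (totalDegree_mul _ _).trans ?_
  have h1 : (w ^ (d - i)).totalDegree ≤ d - i :=
    (totalDegree_pow _ _).trans (by
      calc (d - i) * w.totalDegree ≤ (d - i) * 1 := Nat.mul_le_mul_left _ hw
        _ = d - i := mul_one _)
  have h2 : (aeval h (homogeneousComponent i P)).totalDegree ≤ i :=
    totalDegree_aeval_le hh ((homogeneousComponent_isHomogeneous i P).totalDegree_le)
  omega

/-- equality of polynomials on the complement of a hypersurface -/
lemma eq_of_eval {w p q : MvPolynomial τ ℂ} (hw : w ≠ 0)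
    (h : ∀ x, eval x w ≠ 0 → eval x p = eval x q) : p = q := by
  have : w * p = w * q := by
    refine MvPolynomial.funext fun x => ?_
    rw [map_mul, map_mul]
    by_cases hx : eval x w = 0
    · rw [hx]; simp
    · rw [h x hx]
  exact mul_left_cancel₀ hw this

end tr

/-! ### The two transforms -/

section two

variable {m : ℕ}

/-- `1 + a` -/
noncomputable def wa : MvPolynomial (Fin m ⊕ Unit) ℂ := 1 + X (Sum.inr ())
/-- `1 + z_0` -/
noncomputable def wz : MvPolynomial (Fin (m + 1)) ℂ := 1 + X 0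
noncomputable def ha : Fin (m + 1) → MvPolynomial (Fin m ⊕ Unit) ℂ :=
  Fin.cons (1 - X (Sum.inr ())) fun j => C ((Real.sqrt 2 : ℝ) : ℂ) * X (Sum.inl j)
noncomputable def hz : Fin m ⊕ Unit → MvPolynomial (Fin (m + 1)) ℂ :=
  Sum.elim (fun j => C ((Real.sqrt 2 : ℝ) : ℂ) * X j.succ) fun _ => 1 - X 0

lemma cay_eq (d : ℕ) (P : MvPolynomial (Fin (m + 1)) ℂ) : cay d P = tr wa ha d P := rfl

lemma wa_deg : (wa (m := m)).totalDegree ≤ 1 :=
  (totalDegree_add _ _).trans (by simp)

lemma wz_deg : (wz (m := m)).totalDegree ≤ 1 :=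
  (totalDegree_add _ _).trans (by simp)

lemma ha_deg (k : Fin (m + 1)) : (ha k).totalDegree ≤ 1 := by
  refine Fin.cases ?_ (fun j => ?_) k
  · rw [ha, Fin.cons_zero]
    exact (totalDegree_sub _ _).trans (by simp)
  · rw [ha, Fin.cons_succ]
    exact (totalDegree_mul _ _).trans (by simp)

lemma wa_eval (x : Fin m ⊕ Unit → ℂ) : eval x wa = 1 + x (Sum.inr ()) := by simp [wa]
lemma wz_eval (x : Fin (m + 1) → ℂ) : eval x wz = 1 + x 0 := by simp [wz]

lemma wa_ne : (wa (m := m)) ≠ 0 := by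
  intro h
  have := wa_eval (m := m) 0
  rw [h] at this
  simp at this

lemma wz_ne : (wz (m := m)) ≠ 0 := by
  intro h
  have := wz_eval (m := m) 0
  rw [h] at this
  simp at this

lemma ha_eval (x : Fin m ⊕ Unit → ℂ) (c : ℂ) :
    (fun k => c * eval x (ha k)) = (Fin.cons (c * (1 - x (Sum.inr ())))
      fun j => c * (((Real.sqrt 2 : ℝ) : ℂ) * x (Sum.inl j)) : Fin (m + 1) → ℂ) := by
  funext k
  refine Fin.cases ?_ (fun j => ?_) k
  · simp [ha]
  · simp [ha]

lemma hz_eval (z : Fin (m + 1) → ℂ) (c : ℂ) :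
    (fun k => c * eval z (hz k)) = (Sum.elim (fun j => c * (((Real.sqrt 2 : ℝ) : ℂ) * z j.succ))
      fun _ => c * (1 - z 0) : Fin m ⊕ Unit → ℂ) := by
  funext k
  rcases k with j | j
  · simp [hz]
  · simp [hz]

/-- the inverse transform -/
noncomputable abbrev iv (e : ℕ) (R : MvPolynomial (Fin m ⊕ Unit) ℂ) :
    MvPolynomial (Fin (m + 1)) ℂ := tr wz hz e R

lemma iv_eval {e : ℕ} {R : MvPolynomial (Fin m ⊕ Unit) ℂ} (hR : R.totalDegree ≤ e)
    (z : Fin (m + 1) → ℂ) (hzz : 1 + z 0 ≠ 0) :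
    eval z (iv e R) = (1 + z 0) ^ e * eval (Sum.elim
      (fun j => (1 + z 0)⁻¹ * (((Real.sqrt 2 : ℝ) : ℂ) * z j.succ))
      fun _ => (1 + z 0)⁻¹ * (1 - z 0)) R := by
  have h := tr_eval wz hz hR z (by rwa [wz_eval])
  rw [wz_eval, hz_eval] at h
  exact h

lemma iv_mul {e e' : ℕ} {R S : MvPolynomial (Fin m ⊕ Unit) ℂ} (hR : R.totalDegree ≤ e)
    (hS : S.totalDegree ≤ e') : iv (e + e') (R * S) = iv e R * iv e' S := by
  refine eq_of_eval wz_ne fun z hzz => ?_
  rw [wz_eval] at hzz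
  rw [map_mul, iv_eval hR z hzz, iv_eval hS z hzz,
    iv_eval ((totalDegree_mul _ _).trans (add_le_add hR hS)) z hzz, map_mul, pow_add]
  ring

lemma iv_succ {e : ℕ} {R : MvPolynomial (Fin m ⊕ Unit) ℂ} (hR : R.totalDegree ≤ e) :
    iv (e + 1) R = wz * iv e R := by
  refine eq_of_eval wz_ne fun z hzz => ?_
  rw [wz_eval] at hzz
  rw [map_mul, iv_eval hR z hzz, iv_eval (hR.trans (Nat.le_succ e)) z hzz, wz_eval, pow_succ]
  ring

lemma sqrt_sq : ((Real.sqrt 2 : ℝ) : ℂ) * ((Real.sqrt 2 : ℝ) : ℂ) = 2 := by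
  rw [← Complex.ofReal_mul, Real.mul_self_sqrt (by norm_num)]
  norm_num

lemma iv_cay {d : ℕ} {P : MvPolynomial (Fin (m + 1)) ℂ} (hP : P.totalDegree ≤ d) :
    iv d (cay d P) = C ((2 : ℂ) ^ d) * P := by
  refine eq_of_eval wz_ne fun z hzz => ?_
  rw [wz_eval] at hzz
  have hc : (cay d P).totalDegree ≤ d := by
    rw [cay_eq]
    exact totalDegree_tr_le wa_deg ha_deg d P
  rw [iv_eval hc z hzz, map_mul, eval_C, cay_eq]
  set y : Fin m ⊕ Unit → ℂ := Sum.elim
      (fun j => (1 + z 0)⁻¹ * (((Real.sqrt 2 : ℝ) : ℂ) * z j.succ))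
      fun _ => (1 + z 0)⁻¹ * (1 - z 0) with hy
  have hw : eval y wa = 2 * (1 + z 0)⁻¹ := by
    rw [wa_eval, hy]
    simp only [Sum.elim_inr]
    field_simp
    ring
  have h2 : (2 : ℂ) ≠ 0 := two_ne_zero
  have hw0 : eval y wa ≠ 0 := by
    rw [hw]
    exact mul_ne_zero h2 (inv_ne_zero hzz)
  rw [tr_eval wa ha hP y hw0, ha_eval, hw]
  have e1 : (Fin.cons ((2 * (1 + z 0)⁻¹)⁻¹ * (1 - y (Sum.inr ())))
      fun j => (2 * (1 + z 0)⁻¹)⁻¹ * (((Real.sqrt 2 : ℝ) : ℂ) * y (Sum.inl j)) :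
        Fin (m + 1) → ℂ) = z := by
    funext k
    refine Fin.cases ?_ (fun j => ?_) k
    · simp only [Fin.cons_zero, hy, Sum.elim_inr]
      field_simp
      ring
    · simp only [Fin.cons_succ, hy, Sum.elim_inl]
      have := sqrt_sq
      field_simp
      linear_combination z j.succ * this
  rw [e1, ← mul_assoc, ← mul_pow]
  congr 2
  field_simp

lemma unit_eval {σ : Type*} {r : MvPolynomial σ ℂ} (hr : IsUnit r) (x : σ → ℂ) : eval x r ≠ 0 :=
  (hr.map (eval x)).ne_zero

lemma wz_not_unit : ¬ IsUnit (wz (m := m)) := by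
  intro h
  refine unit_eval h (fun _ => -1) ?_
  rw [wz_eval]
  ring

/-- a unit is a constant -/
lemma unit_const {σ : Type*} {r : MvPolynomial σ ℂ} (hr : IsUnit r) : ∃ c : ℂ, c ≠ 0 ∧ r = C c := by
  obtain ⟨h1, h2⟩ := isUnit_iff_totalDegree_of_isReduced.1 hr
  refine ⟨coeff 0 r, h1.ne_zero, ?_⟩
  exact (totalDegree_eq_zero_iff_eq_C).1 h2

lemma iv_zero (e : ℕ) : iv e (0 : MvPolynomial (Fin m ⊕ Unit) ℂ) = 0 := by
  simp [iv, tr]

lemma cay_at_neg (d : ℕ) (P : MvPolynomial (Fin (m + 1)) ℂ) (β : Fin m → ℂ) :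
    eval (Sum.elim β fun _ => (-1 : ℂ)) (cay d P) = eval (Fin.cons 2
      fun j => ((Real.sqrt 2 : ℝ) : ℂ) * β j : Fin (m + 1) → ℂ) (homogeneousComponent d P) := by
  rw [cay_eq, tr, map_sum, sum_eq_single_of_mem d (by simp)]
  · rw [Nat.sub_self, pow_zero, one_mul, ev_aeval]
    congr 1
    have := ha_eval (m := m) (Sum.elim β fun _ => (-1 : ℂ)) 1
    simp only [one_mul, Sum.elim_inr, Sum.elim_inl] at this
    rw [this]
    congr 2
    norm_num
  · intro i hi hid
    have hi' : i ≤ d := by simpa [Nat.lt_succ_iff] using hi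
    have : d - i ≠ 0 := by omega
    rw [map_mul, map_pow, wa_eval]
    simp [this]

theorem g_ccop' : G_CCOP := by
  intro m N d P hcop hdeg htop
  have hcd : ∀ k, (cay d (P k)).totalDegree ≤ d := fun k => by
    rw [cay_eq]
    exact totalDegree_tr_le wa_deg ha_deg d (P k)
  have h2d : (2 : ℂ) ^ d ≠ 0 := pow_ne_zero _ two_ne_zero
  have hP : ∀ k, P k = C (((2 : ℂ) ^ d)⁻¹) * iv d (cay d (P k)) := fun k => by
    rw [iv_cay (hdeg k), ← mul_assoc, ← C_mul, inv_mul_cancel₀ h2d, C_1, one_mul]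
  have htop' : ∃ k, (cay d (P k)).totalDegree = d := by
    by_contra hno
    push Not at hno
    have hlt : ∀ k, (cay d (P k)).totalDegree < d := fun k => lt_of_le_of_ne (hcd k) (hno k)
    obtain ⟨e, rfl⟩ : ∃ e, d = e + 1 := by
      have := hlt 0
      exact ⟨d - 1, by omega⟩
    refine wz_not_unit (hcop wz fun k => ?_)
    rw [hP k, iv_succ (Nat.lt_succ_iff.1 (hlt k))]
    exact ⟨C (((2 : ℂ) ^ (e + 1))⁻¹) * iv e (cay (e + 1) (P k)), by ring⟩
  refine ⟨hcd, htop', fun R hR => ?_⟩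
  -- `R ≠ 0`
  have hR0 : R ≠ 0 := by
    intro h
    have h0 : ∀ k, P k = 0 := fun k => by
      have := hR k
      rw [h, zero_dvd_iff] at this
      rw [hP k, this, iv_zero, mul_zero]
    have := hcop 0 fun k => by rw [h0 k]
    exact not_isUnit_zero this
  set e := R.totalDegree with he
  have hed : e ≤ d := by
    obtain ⟨k, hk⟩ : ∃ k, P k ≠ 0 := by
      by_contra hno
      push Not at hno
      have := hcop 0 fun k => by rw [hno k]
      exact not_isUnit_zero this
    obtain ⟨S, hS⟩ := hR k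
    have hS0 : S ≠ 0 := by
      intro h
      rw [h, mul_zero] at hS
      apply hk
      rw [hP k, hS, iv_zero, mul_zero]
    have := totalDegree_mul_of_isDomain hR0 hS0
    have h3 := hcd k
    rw [hS] at h3
    omega
  have hdiv : ∀ k, iv e R ∣ P k := by
    intro k
    obtain ⟨S, hS⟩ := hR k
    by_cases hS0 : S = 0
    · rw [hP k, hS, hS0, mul_zero, iv_zero, mul_zero]
      exact dvd_zero _
    · have h1 := totalDegree_mul_of_isDomain hR0 hS0
      have h3 := hcd k
      rw [hS] at h3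
      have h4 : S.totalDegree ≤ d - e := by omega
      rw [hP k, hS]
      have h5 : iv d (R * S) = iv e R * iv (d - e) S := by
        rw [← iv_mul le_rfl h4]
        congr 1
        omega
      rw [h5]
      exact ⟨C (((2 : ℂ) ^ d)⁻¹) * iv (d - e) S, by ring⟩
  obtain ⟨c, hc0, hc⟩ := unit_const (hcop _ hdiv)
  have h2e : (2 : ℂ) ^ e ≠ 0 := pow_ne_zero _ two_ne_zero
  -- `2^e R = c (1 + a)^e`
  have hRe : C ((2 : ℂ) ^ e) * R = C c * wa ^ e := by
    refine eq_of_eval wa_ne fun y hy => ?_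
    rw [wa_eval] at hy
    rw [map_mul, map_mul, eval_C, eval_C, map_pow, wa_eval]
    set z : Fin (m + 1) → ℂ := Fin.cons ((1 + y (Sum.inr ()))⁻¹ * (1 - y (Sum.inr ())))
      fun j => (1 + y (Sum.inr ()))⁻¹ * (((Real.sqrt 2 : ℝ) : ℂ) * y (Sum.inl j)) with hz
    have hz0 : 1 + z 0 = 2 * (1 + y (Sum.inr ()))⁻¹ := by
      rw [hz]
      simp only [Fin.cons_zero]
      field_simp
      ring
    have hz1 : 1 + z 0 ≠ 0 := by
      rw [hz0]
      exact mul_ne_zero two_ne_zero (inv_ne_zero hy)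
    have h1 := iv_eval (le_refl R.totalDegree) z hz1
    rw [← he, hc, eval_C] at h1
    have h2 : (Sum.elim (fun j => (1 + z 0)⁻¹ * (((Real.sqrt 2 : ℝ) : ℂ) * z j.succ))
        fun _ => (1 + z 0)⁻¹ * (1 - z 0) : Fin m ⊕ Unit → ℂ) = y := by
      rw [hz0]
      funext k
      rcases k with j | j
      · simp only [Sum.elim_inl, hz, Fin.cons_succ]
        have := sqrt_sq
        field_simp
        linear_combination y (Sum.inl j) * this
      · simp only [Sum.elim_inr, hz, Fin.cons_zero]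
        field_simp
        ring
    rw [h2, hz0, mul_pow, inv_pow] at h1
    have h3 : (1 + y (Sum.inr ())) ^ e ≠ 0 := pow_ne_zero _ hy
    rw [h1]
    field_simp
  have hR' : R = C (((2 : ℂ) ^ e)⁻¹ * c) * wa ^ e := by
    rw [C_mul, mul_assoc, ← hRe, ← mul_assoc, ← C_mul, inv_mul_cancel₀ h2e, C_1, one_mul]
  rcases Nat.eq_zero_or_pos e with he0 | he0
  · rw [hR', he0, pow_zero, pow_zero, mul_one]
    exact (isUnit_iff_ne_zero.2 (by simpa using hc0)).map C
  · exfalso
    obtain ⟨k, hk⟩ := htop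
    have hdv : wa ∣ cay d (P k) := by
      refine dvd_trans ?_ (hR k)
      rw [hR']
      exact Dvd.dvd.mul_left (dvd_pow_self _ (by omega)) _
    have hz : ∀ β : Fin m → ℂ, eval (Fin.cons 2
      fun j => ((Real.sqrt 2 : ℝ) : ℂ) * β j : Fin (m + 1) → ℂ)
        (homogeneousComponent d (P k)) = 0 := by
      intro β
      rw [← cay_at_neg]
      obtain ⟨S, hS⟩ := hdv
      rw [hS, map_mul, wa_eval]
      simp
    have hh : homogeneousComponent d (P k) = 0 := by
      refine eq_of_eval (w := X 0) (X_ne_zero _) fun x hx => ?_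
      rw [eval_X] at hx
      have hs : ((Real.sqrt 2 : ℝ) : ℂ) ≠ 0 := by
        intro h0
        have := sqrt_sq
        rw [h0] at this
        norm_num at this
      have h1 := eval_hom (homogeneousComponent_isHomogeneous d (P k)) (x 0 / 2)
        (Fin.cons 2 (fun j => ((Real.sqrt 2 : ℝ) : ℂ) *
          (2 * x j.succ / (x 0 * ((Real.sqrt 2 : ℝ) : ℂ)))) : Fin (m + 1) → ℂ)
      rw [hz, mul_zero] at h1
      rw [map_zero, ← h1]
      congr 1
      congr 1
      funext i
      refine Fin.cases ?_ (fun j => ?_) i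
      · simp
      · simp only [Fin.cons_succ]
        field_simp
    have hne : P k ≠ 0 := by
      intro h
      rw [h, totalDegree_zero] at hk
      omega
    obtain ⟨s, hs, hsd⟩ : ∃ s ∈ (P k).support, s.degree = d := by
      have hsup : (P k).support.Nonempty := by
        rwa [support_nonempty]
      obtain ⟨s, hs, h1⟩ := exists_mem_eq_sup _ hsup (fun s : Fin (m + 1) →₀ ℕ => s.sum fun _ e => e)
      refine ⟨s, hs, ?_⟩
      rw [← hk]
      exact h1.symm
    have h3 := coeff_homogeneousComponent d (P k) s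
    rw [hh, coeff_zero, if_pos hsd] at h3
    exact (mem_support_iff.1 hs) h3.symm

end two

end Pool.Agent.Helper39.DC.Ccop

namespace Pool.Agent.Helper39.DC

/-- packet CCOP; the hypothesis `G_CEV` is not needed -/
theorem g_ccop : Pool.Agent.Helper69.DC.G_CCOP := Ccop.g_ccop'

end Pool.Agent.Helper39.DC
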