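import Pool.Agent.Helper69.DC.Goals

set_option autoImplicit false

/-!
# Project DC (MP_628424_an): packet CEV (value of the Cayley transform)
-/

namespace Pool.Agent.Helper39.DC

open MvPolynomial Finset Pool.Agent.Helper69.DC

lemma eval_smul_hom {n d : ℕ} {q : MvPolynomial (Fin n) ℂ} (hq : q.IsHomogeneous d)
    (c : ℂ) (x : Fin n → ℂ) : eval (fun i => c * x i) q = c ^ d * eval x q := by
  rw [eval_eq', eval_eq', mul_sum]
  refine sum_congr rfl fun s hs => ?_
  have hdeg : ∑ i, s i = d := by
    have := hq (mem_support_iff.mp hs)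
    rw [Finsupp.weight_apply] at this
    rw [← this, Finsupp.sum_fintype _ _ (by simp)]
    simp
  have h2 : ∏ i, (c * x i) ^ s i = c ^ d * ∏ i, x i ^ s i := by
    simp only [mul_pow]
    rw [prod_mul_distrib, prod_pow_eq_pow_sum, hdeg]
  rw [h2]
  ring

lemma sum_hom {σ : Type*} (P : MvPolynomial σ ℂ) {d : ℕ} (h : P.totalDegree ≤ d) :
    ∑ i ∈ range (d + 1), homogeneousComponent i P = P := by
  conv_rhs => rw [← sum_homogeneousComponent P]
  symm
  refine sum_subset (range_subset_range.2 (by omega)) fun i _ hi => ?_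
  exact homogeneousComponent_eq_zero i P (by simpa using hi)

lemma ev_aeval {σ τ : Type*} (g : τ → ℂ) (h : σ → MvPolynomial τ ℂ) (Q : MvPolynomial σ ℂ) :
    eval g (aeval h Q) = eval (fun k => eval g (h k)) Q := by
  induction Q using MvPolynomial.induction_on with
  | C a => simp
  | add p q hp hq => rw [map_add, map_add, map_add, hp, hq]
  | mul_X p n hp => rw [map_mul, map_mul, map_mul, hp, aeval_X, eval_X]

theorem g_cev : G_CEV := by
  intro m d P hP β a ha
  conv_rhs => rw [← sum_hom P hP]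
  rw [map_sum, mul_sum, cay, map_sum]
  refine sum_congr rfl fun i hi => ?_
  have hi' : i ≤ d := by simpa [Nat.lt_succ_iff] using hi
  have e1 : (Fin.cons ((1 - a) / (1 + a)) fun j => ((Real.sqrt 2 : ℝ) : ℂ) * β j / (1 + a) :
      Fin (m + 1) → ℂ) = fun k => (1 + a)⁻¹ *
        (Fin.cons (1 - a) (fun j => ((Real.sqrt 2 : ℝ) : ℂ) * β j) : Fin (m + 1) → ℂ) k := by
    funext k
    refine Fin.cases ?_ (fun j => ?_) k
    · simp only [Fin.cons_zero]; ring
    · simp only [Fin.cons_succ]; ring
  rw [e1, eval_smul_hom (homogeneousComponent_isHomogeneous i P), ← mul_assoc]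
  have e2 : (1 + a) ^ d * ((1 + a)⁻¹) ^ i = (1 + a) ^ (d - i) := by
    rw [inv_pow, ← div_eq_mul_inv, div_eq_iff (pow_ne_zero _ ha), ← pow_add]
    congr 1
    omega
  rw [e2, map_mul, map_pow, ev_aeval]
  congr 1
  · simp
  · congr 2
    funext k
    refine Fin.cases ?_ (fun j => ?_) k
    · simp
    · simp

end Pool.Agent.Helper39.DC
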